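import Pool.Agent.W61h.RE.Lcm

/-!
# Polynomiality of regular elliptic factorization counts for `q ≡ 1 (mod n)`

The known explicit formula for the number of `k`-tuples of regular elliptic elements of
`GL_n(F_q)` with regular elliptic product consists of nested sums over divisors of `n`, rational
functions of `q`, and the numbers `lcm ((q^n - 1) / (q^c - 1), q^(d_1) - 1, …, q^(d_(k+1)) - 1)`.
It comes from Frobenius' formula and the values of the irreducible characters at regular elliptic
elements (Green): only the characters `χ_(θ, h)` contribute, `θ` a character of `F_(q^s)^×` with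
`s` conjugates, `s` a divisor of `n`, and `(n / s - h, 1^h)` a hook; the value at an element with
eigenvalue `e` is `(-1)^(n - n/s + h)` times the sum of the conjugates of `θ` at the norm of `e`.

We show that for `q ≡ 1 (mod n)` these least common multiples are polynomials in `q`, so that the
count is a polynomial in `q` for `q ≡ 1 (mod n)`.
-/

set_option autoImplicit false

open Polynomial Finset Pool.Agent.W61h.RE

namespace Pool.Agent.Results.MP_f95f3f_co.PolynomialForOneModN

/-- An element of `GL_n(K)` is regular elliptic if its characteristic polynomial is irreducible. -/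
def RegularElliptic {n : ℕ} {K : Type} [Field K] (g : GL (Fin n) K) : Prop :=
  Irreducible (g : Matrix (Fin n) (Fin n) K).charpoly

/-- The number `g_{k,(n)}(q)` for the field `K` with `q` elements: the number of `k`-tuples of
regular elliptic elements `t_1, …, t_k` whose product `t_1 ⋯ t_k` is regular elliptic. -/
noncomputable def count (n k : ℕ) (K : Type) [Field K] : ℕ :=
  Nat.card {t : Fin k → GL (Fin n) K // (∀ i, RegularElliptic (t i)) ∧
    RegularElliptic (List.ofFn t).prod}

/-- `lcm ((q^n - 1) / (q^c - 1), q^(d_1) - 1, …, q^(d_r) - 1)` for the list `d_1, …, d_r`. -/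
def lcms (n c q : ℕ) (l : List ℕ) : ℕ :=
  l.foldr (fun d x => Nat.lcm (q ^ d - 1) x) ((q ^ n - 1) / (q ^ c - 1))

/-- The order of `GL_n(F_q)`. -/
def order (n : ℕ) (q : ℚ) : ℚ := ∏ i ∈ range n, (q ^ n - q ^ i)

/-- The degree of the character `χ_(θ, h)` of `GL_n(F_q)`, `θ` a character of `F_(q^s)^×` with `s`
conjugates, for the hook `(n / s - h, 1^h)`. -/
def degree (n s h : ℕ) (q : ℚ) : ℚ :=
  (∏ i ∈ range (n - 1), (q ^ (i + 1) - 1)) * q ^ (s * (h * (h + 1) / 2)) /
    ((∏ i ∈ range (n / s - h - 1), (q ^ (s * (i + 1)) - 1)) *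
      ∏ i ∈ range h, (q ^ (s * (i + 1)) - 1))

/-- The sum over the characters `θ` of `F_(q^s)^×` with `s` conjugates of the power `k + 1` of the
sum of `θ(N(e))` over the generators `e` of the extension `F_(q^n)` of `F_q`, by Möbius inversion. -/
noncomputable def charSum (n k s q : ℕ) : ℚ :=
  ∑ c ∈ s.divisors, (ArithmeticFunction.moebius (s / c) : ℚ) *
    ∑ d ∈ Fintype.piFinset (fun _ : Fin (k + 1) => n.divisors),
      (∏ i, ((ArithmeticFunction.moebius (n / d i) : ℚ) * ((q : ℚ) ^ (d i) - 1))) *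
        (((q : ℚ) ^ n - 1) / (lcms n c q (List.ofFn d) : ℚ))

/-- The known explicit formula. -/
noncomputable def formula (n k q : ℕ) : ℚ :=
  ∑ s ∈ n.divisors, ∑ h ∈ range (n / s),
    degree n s h q * ((degree n s h q)⁻¹) ^ k / order n q *
      (order n q / (n * ((q : ℚ) ^ n - 1))) ^ (k + 1) *
      (-1) ^ ((n - n / s + h) * (k + 1)) * (s : ℚ) ^ k * charSum n k s q

theorem powsub_ne (q m : ℕ) (hq : 2 ≤ q) (hm : 0 < m) : (q : ℚ) ^ m - 1 ≠ 0 := by
  rw [← cast_pow_sub q m hq]
  exact_mod_cast pow_sub_ne_zero q m hq hm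

theorem rat_powsub (n m : ℕ) : IsRat n (fun q => (q : ℚ) ^ m - 1) :=
  (IsRat.var.pow m).sub (IsRat.const 1)

theorem lcms_ne (n c q : ℕ) (hn : 0 < n) (hc : c ∣ n) (hq : 2 ≤ q) (l : List ℕ)
    (hl : ∀ d ∈ l, d ∣ n) : lcms n c q l ≠ 0 := by
  induction l with
  | nil => exact x0_ne_zero n c q hn hc hq
  | cons d l ih =>
    have h1 : 0 < d := Nat.pos_of_dvd_of_pos (hl d (by simp)) hn
    exact Nat.lcm_ne_zero (pow_sub_ne_zero q d hq h1) (ih fun x hx => hl x (by simp [hx]))

theorem rat_charSum (n k s : ℕ) (hn : 0 < n) (hs : s ∣ n) : IsRat n (fun q => charSum n k s q) := by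
  refine IsRat.sum _ _ fun c hc => (IsRat.const _).mul (IsRat.sum _ _ fun d hd => ?_)
  have hcn : c ∣ n := (Nat.dvd_of_mem_divisors hc).trans hs
  have hdn : ∀ i, d i ∣ n := fun i => Nat.dvd_of_mem_divisors (Fintype.mem_piFinset.mp hd i)
  have hl : ∀ x ∈ List.ofFn d, x ∣ n := by
    intro x hx
    obtain ⟨i, rfl⟩ := (List.mem_ofFn' d x).mp hx
    exact hdn i
  refine (IsRat.prod _ _ fun i _ => (IsRat.const _).mul (rat_powsub n (d i))).mul ?_
  refine (rat_powsub n n).div (rat_lcm n c hn hcn _ hl) fun q hq _ => ?_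
  exact_mod_cast lcms_ne n c q hn hcn hq _ hl

theorem degree_ne (n s h q : ℕ) (hs : 0 < s) (hq : 2 ≤ q) : degree n s h (q : ℚ) ≠ 0 := by
  have hq0 : (q : ℚ) ≠ 0 := by
    have : q ≠ 0 := by omega
    exact_mod_cast this
  unfold degree
  refine div_ne_zero (mul_ne_zero (Finset.prod_ne_zero_iff.mpr fun i _ => ?_) (pow_ne_zero _ hq0))
    (mul_ne_zero (Finset.prod_ne_zero_iff.mpr fun i _ => ?_)
      (Finset.prod_ne_zero_iff.mpr fun i _ => ?_))
  · exact powsub_ne q _ hq (by omega)
  · exact powsub_ne q _ hq (by positivity)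
  · exact powsub_ne q _ hq (by positivity)

theorem rat_degree (n s h : ℕ) (hs : 0 < s) : IsRat n (fun q => degree n s h (q : ℚ)) := by
  refine ((IsRat.prod _ _ fun i _ => rat_powsub n _).mul (IsRat.var.pow _)).div
    ((IsRat.prod _ _ fun i _ => rat_powsub n _).mul (IsRat.prod _ _ fun i _ => rat_powsub n _))
    fun q hq _ => ?_
  exact mul_ne_zero (Finset.prod_ne_zero_iff.mpr fun i _ => powsub_ne q _ hq (by positivity))
      (Finset.prod_ne_zero_iff.mpr fun i _ => powsub_ne q _ hq (by positivity))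

theorem rat_order (n m : ℕ) : IsRat n (fun q => order m (q : ℚ)) :=
  IsRat.prod _ _ fun i _ => (IsRat.var.pow m).sub (IsRat.var.pow i)

theorem order_ne (m q : ℕ) (hq : 2 ≤ q) : order m (q : ℚ) ≠ 0 := by
  refine Finset.prod_ne_zero_iff.mpr fun i hi => ?_
  have h1 : q ^ i < q ^ m := Nat.pow_lt_pow_right (by omega) (mem_range.mp hi)
  have h2 : (q : ℚ) ^ i < (q : ℚ) ^ m := by exact_mod_cast h1
  exact (sub_pos.mpr h2).ne'

/-- The explicit formula is a rational function of `q` for `q ≡ 1 (mod n)`. -/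
theorem rat_formula (n k : ℕ) (hn : 0 < n) : IsRat n (fun q => formula n k q) := by
  have hn0 : (n : ℚ) ≠ 0 := by exact_mod_cast hn.ne'
  refine IsRat.sum _ _ fun s hs => IsRat.sum _ _ fun h _ => ?_
  have hsn : s ∣ n := Nat.dvd_of_mem_divisors hs
  have hs0 : 0 < s := Nat.pos_of_dvd_of_pos hsn hn
  refine IsRat.mul (IsRat.mul (IsRat.mul (IsRat.mul (IsRat.div (IsRat.mul (rat_degree n s h hs0)
    (((rat_degree n s h hs0).inv fun q hq _ => degree_ne n s h q hs0 hq).pow k))
    (rat_order n n) fun q hq _ => order_ne n q hq)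
    (IsRat.pow ((rat_order n n).div ((IsRat.const _).mul (rat_powsub n n))
      fun q hq _ => mul_ne_zero hn0 (powsub_ne q n hq hn)) (k + 1)))
    (IsRat.const _)) (IsRat.const _)) (rat_charSum n k s hn hsn)

/-- **Polynomiality for `q ≡ 1 (mod n)`.**
(1) For all `n ≥ 1` and all divisors `c, d_1, …, d_r` of `n` there is a polynomial `P` with rational
coefficients such that `lcm ((q^n - 1) / (q^c - 1), q^(d_1) - 1, …, q^(d_r) - 1) = P(q)` for every
integer `q ≥ 2` with `q ≡ 1 (mod n)`.
(2) For all `n, k ≥ 1` there are polynomials `A, B` with rational coefficients such that the explicit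
formula has the value `A(q) / B(q)`, `B(q) ≠ 0`, for every integer `q ≥ 2` with `q ≡ 1 (mod n)`; if
these values are integers for all primes `q ≡ 1 (mod n)`, then `formula n k q` is a polynomial in `q`
for `q ≡ 1 (mod n)`.
(3) For all `n, k ≥ 1`: if the known explicit formula holds at the fields with a prime number
`p ≡ 1 (mod n)` of elements, and at the other finite fields with `q ≡ 1 (mod n)` elements, then
there is a polynomial `f` with rational coefficients such that the number of `k`-tuples of regular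
elliptic elements with regular elliptic product of `GL_n` over each finite field with
`q ≡ 1 (mod n)` elements is `f(q)`. -/
theorem result :
    (∀ n : ℕ, 0 < n → ∀ c : ℕ, c ∣ n → ∀ l : List ℕ, (∀ d ∈ l, d ∣ n) →
      ∃ P : ℚ[X], ∀ q : ℕ, 2 ≤ q → q ≡ 1 [MOD n] → (lcms n c q l : ℚ) = P.eval (q : ℚ)) ∧
    (∀ n k : ℕ, 0 < n → 0 < k →
      (∃ A B : ℚ[X], ∀ q : ℕ, 2 ≤ q → q ≡ 1 [MOD n] → B.eval (q : ℚ) ≠ 0 ∧
        formula n k q = A.eval (q : ℚ) / B.eval (q : ℚ)) ∧
      ((∀ q : ℕ, q.Prime → q ≡ 1 [MOD n] → ∃ z : ℤ, formula n k q = z) →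
        ∃ f : ℚ[X], ∀ q : ℕ, 2 ≤ q → q ≡ 1 [MOD n] → formula n k q = f.eval (q : ℚ))) ∧
    (∀ n k : ℕ, 0 < n → 0 < k →
      (∀ (K : Type) [Field K] [Finite K], Nat.card K ≡ 1 [MOD n] →
        (count n k K : ℚ) = formula n k (Nat.card K)) →
      ∃ f : ℚ[X], ∀ (K : Type) [Field K] [Finite K], Nat.card K ≡ 1 [MOD n] →
        (count n k K : ℚ) = f.eval (Nat.card K : ℚ)) := by
  refine ⟨fun n hn c hc l hl => ?_, fun n k hn _ => ⟨rat_formula n k hn, fun hz =>
    (rat_formula n k hn).poly_of_int hn.ne' hz⟩, fun n k hn _ hf => ?_⟩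
  · exact (rat_lcm n c hn hc l hl).poly_of_int hn.ne' fun q _ _ => ⟨(lcms n c q l : ℕ), by
      unfold lcms
      push_cast
      rfl⟩
  · obtain ⟨f, hfq⟩ := (rat_formula n k hn).poly_of_int hn.ne' fun q hq hq1 => by
      have : Fact q.Prime := ⟨hq⟩
      have h1 : Nat.card (ZMod q) = q := by
        rw [Nat.card_eq_fintype_card, ZMod.card]
      have h2 := hf (ZMod q) (by rw [h1]; exact hq1)
      rw [h1] at h2
      exact ⟨(count n k (ZMod q) : ℕ), by rw [← h2]; push_cast; rfl⟩
    refine ⟨f, fun K _ _ hK => ?_⟩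
    rw [hf K hK]
    exact hfq _ (Finite.one_lt_card) hK

end Pool.Agent.Results.MP_f95f3f_co.PolynomialForOneModN
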